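import Pool.Agent.F5S.Stmts

/-!
# F5S, row BBD: volume of triples with a small determinant
-/

set_option autoImplicit false

open MeasureTheory Filter Topology

namespace Pool.Agent.F5S.H11

open Pool.Agent.BTL Pool.Agent.F5S

/-- a set fibred over a set `Z` of pairs, with fibres of area at most `c` -/
theorem vol_fib {S : Set (((ℝ × ℝ) × (ℝ × ℝ)) × (ℝ × ℝ))} (hS : MeasurableSet S)
    {Z : Set ((ℝ × ℝ) × (ℝ × ℝ))} (hZ : MeasurableSet Z) (h1 : ∀ z ∈ S, z.1 ∈ Z) (c : ENNReal)
    (h2 : ∀ w, volume {y | (w, y) ∈ S} ≤ c) : volume S ≤ c * volume Z := by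
  rw [Measure.volume_eq_prod, Measure.prod_apply hS]
  calc ∫⁻ w, volume (Prod.mk w ⁻¹' S) ≤ ∫⁻ w, Z.indicator (fun _ => c) w := by
        apply lintegral_mono
        intro w
        by_cases hw : w ∈ Z
        · rw [Set.indicator_of_mem hw]
          exact h2 w
        · rw [Set.indicator_of_notMem hw]
          have : Prod.mk w ⁻¹' S = ∅ := by
            ext y
            simp only [Set.mem_preimage, Set.mem_empty_iff_false, iff_false]
            exact fun h => hw (h1 _ h)
          change volume (Prod.mk w ⁻¹' S) ≤ 0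
          rw [this, measure_empty]
    _ = c * volume Z := lintegral_indicator_const hZ c

theorem cont_qf (A : ℝ × ℝ × ℝ) : Continuous (qf A) := by
  unfold qf
  fun_prop

theorem cont_nr : Continuous nr := by
  unfold nr
  fun_prop

theorem cont_dr : Continuous (fun z : (ℝ × ℝ) × (ℝ × ℝ) => dr z.1 z.2) := by
  unfold dr
  fun_prop

/-- the set of pairs of PBD -/
def Zs (A : ℝ × ℝ × ℝ) (T κ h g : ℝ) : Set ((ℝ × ℝ) × (ℝ × ℝ)) :=
  {z | nr z.1 < T ^ 2 ∧ nr z.2 < T ^ 2 ∧ |dr z.1 z.2| ≤ κ * T ^ 2 ∧ |qf A z.1 - qf A z.2 - g| ≤ h}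

theorem meas_Zs (A : ℝ × ℝ × ℝ) (T κ h g : ℝ) : MeasurableSet (Zs A T κ h g) := by
  have h1 : MeasurableSet {z : (ℝ × ℝ) × (ℝ × ℝ) | nr z.1 < T ^ 2} :=
    (isOpen_lt (cont_nr.comp continuous_fst) continuous_const).measurableSet
  have h2 : MeasurableSet {z : (ℝ × ℝ) × (ℝ × ℝ) | nr z.2 < T ^ 2} :=
    (isOpen_lt (cont_nr.comp continuous_snd) continuous_const).measurableSet
  have h3 : MeasurableSet {z : (ℝ × ℝ) × (ℝ × ℝ) | |dr z.1 z.2| ≤ κ * T ^ 2} :=
    (isClosed_le cont_dr.abs continuous_const).measurableSet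
  have h4 : MeasurableSet {z : (ℝ × ℝ) × (ℝ × ℝ) | |qf A z.1 - qf A z.2 - g| ≤ h} :=
    (isClosed_le ((((cont_qf A).comp continuous_fst).sub
      ((cont_qf A).comp continuous_snd)).sub continuous_const).abs continuous_const).measurableSet
  exact h1.inter (h2.inter (h3.inter h4))

/-- the fibred set: pairs in `Zs`, the third point in the annulus around `f z` -/
def Ss (A : ℝ × ℝ × ℝ) (T κ h g e : ℝ) (f : (ℝ × ℝ) × (ℝ × ℝ) → ℝ) :
    Set (((ℝ × ℝ) × (ℝ × ℝ)) × (ℝ × ℝ)) :=
  {z | z.1 ∈ Zs A T κ h g ∧ |qf A z.2 - f z.1| ≤ 2 * e}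

theorem meas_Ss (A : ℝ × ℝ × ℝ) (T κ h g e : ℝ) {f : (ℝ × ℝ) × (ℝ × ℝ) → ℝ} (hf : Continuous f) :
    MeasurableSet (Ss A T κ h g e f) := by
  have h1 : MeasurableSet {z : ((ℝ × ℝ) × (ℝ × ℝ)) × (ℝ × ℝ) | z.1 ∈ Zs A T κ h g} :=
    measurable_fst (meas_Zs A T κ h g)
  have h2 : MeasurableSet {z : ((ℝ × ℝ) × (ℝ × ℝ)) × (ℝ × ℝ) | |qf A z.2 - f z.1| ≤ 2 * e} :=
    (isClosed_le (((cont_qf A).comp continuous_snd).sub
      (hf.comp continuous_fst)).abs continuous_const).measurableSet
  exact h1.inter h2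

theorem vol_Ss (area : S_area_annulus) {M : ℝ} (hM : 1 ≤ M) {A : ℝ × ℝ × ℝ} (hA : A ∈ KM M)
    (T κ h g : ℝ) {e : ℝ} (he : 0 < e) {f : (ℝ × ℝ) × (ℝ × ℝ) → ℝ} (hf : Continuous f) :
    volume (Ss A T κ h g e f) ≤ ENNReal.ofReal (16 * M * e) * volume (Zs A T κ h g) := by
  apply vol_fib (meas_Ss A T κ h g e hf) (meas_Zs A T κ h g) (fun z hz => hz.1)
  intro w
  refine le_trans (measure_mono ?_) (le_trans (area M hM A hA (f w - 2 * e) (4 * e) (by linarith))
    (ENNReal.ofReal_le_ofReal (by nlinarith)))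
  intro y hy
  have h1 := abs_le.1 hy.2
  simp only at h1
  refine ⟨?_, ?_⟩
  · linarith [h1.1]
  · linarith [h1.2]

/-- the three measure preserving rearrangements -/
theorem mp12 : MeasurePreserving (fun z : ((ℝ × ℝ) × (ℝ × ℝ)) × (ℝ × ℝ) =>
    ((z.1.1, (z.1.2, z.2)) : R6)) volume volume :=
  volume_preserving_prodAssoc (α₁ := ℝ × ℝ) (β₁ := ℝ × ℝ) (γ₁ := ℝ × ℝ)

theorem mp23 : MeasurePreserving (fun z : ((ℝ × ℝ) × (ℝ × ℝ)) × (ℝ × ℝ) =>
    ((z.2, (z.1.1, z.1.2)) : R6)) volume volume :=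
  Measure.measurePreserving_swap (μ := (volume : Measure ((ℝ × ℝ) × (ℝ × ℝ))))
    (ν := (volume : Measure (ℝ × ℝ)))

theorem mp13 : MeasurePreserving (fun z : ((ℝ × ℝ) × (ℝ × ℝ)) × (ℝ × ℝ) =>
    ((z.1.1, (z.2, z.1.2)) : R6)) volume volume := by
  have h1 : MeasurePreserving (Prod.map id Prod.swap :
      (ℝ × ℝ) × ((ℝ × ℝ) × (ℝ × ℝ)) → (ℝ × ℝ) × ((ℝ × ℝ) × (ℝ × ℝ))) volume volume :=
    (MeasurePreserving.id (volume : Measure (ℝ × ℝ))).prod
      (Measure.measurePreserving_swap (μ := (volume : Measure (ℝ × ℝ)))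
        (ν := (volume : Measure (ℝ × ℝ))))
  exact h1.comp mp12

theorem meas_ST (T D : ℝ) : MeasurableSet {x : R6 | nlt T x ∧ ¬ dge D x} := by
  have c1 : Continuous (fun x : R6 => nr x.1) := cont_nr.comp continuous_fst
  have c2 : Continuous (fun x : R6 => nr x.2.1) :=
    cont_nr.comp (continuous_fst.comp continuous_snd)
  have c3 : Continuous (fun x : R6 => nr x.2.2) :=
    cont_nr.comp (continuous_snd.comp continuous_snd)
  have d1 : Continuous (fun x : R6 => |dr x.1 x.2.1|) := by unfold dr; fun_prop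
  have d2 : Continuous (fun x : R6 => |dr x.1 x.2.2|) := by unfold dr; fun_prop
  have d3 : Continuous (fun x : R6 => |dr x.2.1 x.2.2|) := by unfold dr; fun_prop
  have h1 : IsOpen {x : R6 | nlt T x} :=
    (isOpen_lt c1 continuous_const).inter
      ((isOpen_lt c2 continuous_const).inter (isOpen_lt c3 continuous_const))
  have h2 : IsClosed {x : R6 | dge D x} :=
    (isClosed_le continuous_const d1).inter
      ((isClosed_le continuous_const d2).inter (isClosed_le continuous_const d3))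
  exact (h1.inter h2.isOpen_compl).measurableSet

/-- BBD -/
theorem bbd (area : S_area_annulus) (kkf : KKFStmt) (pbd : PBDStmt) : BBDStmt := by
  intro M e p hM he
  obtain ⟨C, hC1, hC⟩ := pbd M (4 * e) (|p.1| + |p.2|) hM (by linarith) (by positivity)
  refine ⟨max 1 (e * (3 * (16 * M * e * C))), le_max_left _ _, ?_⟩
  intro A hA T κ hT hκ hκ1
  obtain ⟨hk1, hk2, hk3, -⟩ := kkf e he
  have hnn : ∀ x : R6, 0 ≤ kk e (difr A x - p) := fun x => (hk1 _).1
  refine ⟨integral_nonneg hnn, ?_⟩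
  -- the three sets
  set S12 : Set R6 := {x | ((x.1, x.2.1), x.2.2) ∈
    Ss A T κ (4 * e) p.1 e (fun w => qf A w.2 - p.2)} with hS12
  set S23 : Set R6 := {x | ((x.2.1, x.2.2), x.1) ∈
    Ss A T κ (4 * e) p.2 e (fun w => qf A w.1 + p.1)} with hS23
  set S13 : Set R6 := {x | ((x.1, x.2.2), x.2.1) ∈
    Ss A T κ (4 * e) (p.1 + p.2) e (fun w => qf A w.1 - p.1)} with hS13
  have cf1 : Continuous (fun w : (ℝ × ℝ) × (ℝ × ℝ) => qf A w.2 - p.2) :=
    ((cont_qf A).comp continuous_snd).sub continuous_const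
  have cf2 : Continuous (fun w : (ℝ × ℝ) × (ℝ × ℝ) => qf A w.1 + p.1) :=
    ((cont_qf A).comp continuous_fst).add continuous_const
  have cf3 : Continuous (fun w : (ℝ × ℝ) × (ℝ × ℝ) => qf A w.1 - p.1) :=
    ((cont_qf A).comp continuous_fst).sub continuous_const
  have m1 := meas_Ss A T κ (4 * e) p.1 e cf1
  have m2 := meas_Ss A T κ (4 * e) p.2 e cf2
  have m3 := meas_Ss A T κ (4 * e) (p.1 + p.2) e cf3
  have ms12 : MeasurableSet S12 := by
    have : Measurable (fun x : R6 => ((x.1, x.2.1), x.2.2)) := by fun_prop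
    exact this m1
  have ms23 : MeasurableSet S23 := by
    have : Measurable (fun x : R6 => ((x.2.1, x.2.2), x.1)) := by fun_prop
    exact this m2
  have ms13 : MeasurableSet S13 := by
    have : Measurable (fun x : R6 => ((x.1, x.2.2), x.2.1)) := by fun_prop
    exact this m3
  have hB : (0 : ℝ) ≤ T ^ 2 * Real.sqrt κ + 1 := by positivity
  have hz : ∀ g : ℝ, |g| ≤ |p.1| + |p.2| → ∀ f : (ℝ × ℝ) × (ℝ × ℝ) → ℝ, Continuous f →
      volume (Ss A T κ (4 * e) g e f) ≤
        ENNReal.ofReal (16 * M * e * C * (T ^ 2 * Real.sqrt κ + 1)) := by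
    intro g hg f hf
    refine le_trans (vol_Ss area hM hA T κ (4 * e) g he hf) ?_
    refine le_trans (mul_le_mul_right (hC A hA T κ g hT hκ hκ1 hg) _) ?_
    rw [← ENNReal.ofReal_mul (by positivity)]
    apply ENNReal.ofReal_le_ofReal
    apply le_of_eq
    ring
  have v12 : volume S12 ≤ ENNReal.ofReal (16 * M * e * C * (T ^ 2 * Real.sqrt κ + 1)) := by
    rw [← mp12.measure_preimage ms12.nullMeasurableSet]
    exact hz p.1 (by linarith [abs_nonneg p.2]) _ cf1
  have v23 : volume S23 ≤ ENNReal.ofReal (16 * M * e * C * (T ^ 2 * Real.sqrt κ + 1)) := by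
    rw [← mp23.measure_preimage ms23.nullMeasurableSet]
    exact hz p.2 (by linarith [abs_nonneg p.1]) _ cf2
  have v13 : volume S13 ≤ ENNReal.ofReal (16 * M * e * C * (T ^ 2 * Real.sqrt κ + 1)) := by
    rw [← mp13.measure_preimage ms13.nullMeasurableSet]
    exact hz (p.1 + p.2) (abs_add_le _ _) _ cf3
  set S : Set R6 := S12 ∪ (S23 ∪ S13) with hS
  have mS : MeasurableSet S := ms12.union (ms23.union ms13)
  have vS : volume S ≤ ENNReal.ofReal (3 * (16 * M * e * C) * (T ^ 2 * Real.sqrt κ + 1)) := by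
    refine le_trans (measure_union_le _ _) ?_
    refine le_trans (add_le_add v12 (le_trans (measure_union_le _ _) (add_le_add v23 v13))) ?_
    rw [← ENNReal.ofReal_add (by positivity) (by positivity),
      ← ENNReal.ofReal_add (by positivity) (by positivity)]
    apply ENNReal.ofReal_le_ofReal
    apply le_of_eq
    ring
  have vfin : volume S ≠ ⊤ := (lt_of_le_of_lt vS ENNReal.ofReal_lt_top).ne
  -- the integrand is at most `e` times the indicator of `S`
  have hle : ∀ x ∈ {x : R6 | nlt T x ∧ ¬ dge (κ * T ^ 2) x},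
      kk e (difr A x - p) ≤ S.indicator (fun _ => e) x := by
    rintro x ⟨hn, hd⟩
    by_cases h0 : kk e (difr A x - p) = 0
    · rw [h0]
      exact Set.indicator_nonneg (fun _ _ => he.le) x
    · obtain ⟨k1, k2⟩ := hk3 _ h0
      simp only [difr, Prod.fst_sub, Prod.snd_sub] at k1 k2
      have k1' := abs_lt.1 k1
      have k2' := abs_lt.1 k2
      have hmem : x ∈ S := by
        unfold dge at hd
        rw [not_and_or, not_and_or] at hd
        rcases hd with hd | hd | hd
        · left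
          refine ⟨⟨hn.1, hn.2.1, (not_le.1 hd).le, ?_⟩, ?_⟩
          · simp only
            rw [abs_le]
            constructor <;> linarith [k1'.1, k1'.2]
          · simp only
            rw [abs_le]
            constructor <;> linarith [k2'.1, k2'.2]
        · right
          right
          refine ⟨⟨hn.1, hn.2.2, (not_le.1 hd).le, ?_⟩, ?_⟩
          · simp only
            rw [abs_le]
            constructor <;> linarith [k1'.1, k1'.2, k2'.1, k2'.2]
          · simp only
            rw [abs_le]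
            constructor <;> linarith [k1'.1, k1'.2]
        · right
          left
          refine ⟨⟨hn.2.1, hn.2.2, (not_le.1 hd).le, ?_⟩, ?_⟩
          · simp only
            rw [abs_le]
            constructor <;> linarith [k2'.1, k2'.2]
          · simp only
            rw [abs_le]
            constructor <;> linarith [k1'.1, k1'.2]
      rw [Set.indicator_of_mem hmem]
      exact (hk1 _).2
  have hint : Integrable (S.indicator (fun _ : R6 => e)) volume :=
    (integrable_indicator_iff mS).2 (integrableOn_const vfin)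
  calc BB T κ e p A ≤ ∫ x in {x : R6 | nlt T x ∧ ¬ dge (κ * T ^ 2) x},
        S.indicator (fun _ => e) x := by
        apply integral_mono_of_nonneg
        · exact Eventually.of_forall hnn
        · exact hint.integrableOn
        · exact ae_restrict_of_forall_mem (meas_ST T (κ * T ^ 2)) hle
    _ ≤ ∫ x, S.indicator (fun _ => e) x :=
        setIntegral_le_integral hint (Eventually.of_forall fun x =>
          Set.indicator_nonneg (fun _ _ => he.le) x)
    _ = volume.real S * e := by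
        rw [integral_indicator_const _ mS, smul_eq_mul]
    _ ≤ (3 * (16 * M * e * C) * (T ^ 2 * Real.sqrt κ + 1)) * e := by
        apply mul_le_mul_of_nonneg_right _ he.le
        exact ENNReal.toReal_le_of_le_ofReal (by positivity) vS
    _ = (e * (3 * (16 * M * e * C))) * (T ^ 2 * Real.sqrt κ + 1) := by ring
    _ ≤ _ := mul_le_mul_of_nonneg_right (le_max_right _ _) hB

end Pool.Agent.F5S.H11
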