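import Pool.Agent.F5S.Stmts

/-!
# F5S, rows SEQ and AEC: from geometric sequences to almost every form
-/

set_option autoImplicit false

open MeasureTheory Filter Topology

namespace Pool.Agent.F5S.H11

open Pool.Agent.BTL Pool.Agent.F5S

/-- SEQ -/
theorem seq (adw : ADWStmt) (aeh : AEHStmt) (aeb : AEBStmt) (ptw : PTWStmt) : SEQStmt := by
  intro lam del1 del h1 h2 h3 h4 hard M hM η a b c d hη hab hcd
  have hT : ∀ k : ℕ, (1 : ℝ) ≤ (1 + η) ^ k := fun k => one_le_pow₀ (by linarith)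
  have hj : ∀ j : ℕ, (0 : ℝ) < 1 / ((j : ℝ) + 1) := fun j => by positivity
  have hP : ∀ (j : ℕ) (g : ℤ × ℤ), ∀ᵐ A ∂(volume.restrict (KM M)), Tendsto (fun k : ℕ =>
      (SW ((1 + η) ^ k) (((1 + η) ^ k) ^ lam) (1 / (j + 1)) (WP lam del1 ((1 + η) ^ k))
          (sc (1 / (j + 1)) g) A -
        IW (((1 + η) ^ k) ^ lam) (1 / (j + 1)) (WP lam del1 ((1 + η) ^ k)) (sc (1 / (j + 1)) g) A) /
        ((1 + η) ^ k) ^ 2) atTop (𝓝 0) := by
    intro j g
    exact aeh lam del1 del h3 hard M hM (1 / (j + 1)) (sc (1 / (j + 1)) g) (hj j) η hη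
      (fun k => WP lam del1 ((1 + η) ^ k))
      (fun k => (adw lam del1 _ h1 h2 (hT k)).1.1)
      (fun k => (adw lam del1 _ h1 h2 (hT k)).1.2.1)
      (fun k => (adw lam del1 _ h1 h2 (hT k)).1.2.2.1)
      (fun k => (adw lam del1 _ h1 h2 (hT k)).1.2.2.2)
  have hQ : ∀ (j : ℕ) (g : ℤ × ℤ), ∀ᵐ A ∂(volume.restrict (KM M)), Tendsto (fun k : ℕ =>
      (SW ((1 + η) ^ k) (((1 + η) ^ k) ^ lam) (1 / (j + 1)) (WM lam del1 ((1 + η) ^ k))
          (sc (1 / (j + 1)) g) A -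
        IW (((1 + η) ^ k) ^ lam) (1 / (j + 1)) (WM lam del1 ((1 + η) ^ k)) (sc (1 / (j + 1)) g) A) /
        ((1 + η) ^ k) ^ 2) atTop (𝓝 0) := by
    intro j g
    exact aeh lam del1 del h3 hard M hM (1 / (j + 1)) (sc (1 / (j + 1)) g) (hj j) η hη
      (fun k => WM lam del1 ((1 + η) ^ k))
      (fun k => (adw lam del1 _ h1 h2 (hT k)).2.1)
      (fun k => (adw lam del1 _ h1 h2 (hT k)).2.2.1)
      (fun k => (adw lam del1 _ h1 h2 (hT k)).2.2.2.1)
      (fun k => (adw lam del1 _ h1 h2 (hT k)).2.2.2.2)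
  filter_upwards [ae_all_iff.2 fun j => ae_all_iff.2 fun g => hP j g,
    ae_all_iff.2 fun j => ae_all_iff.2 fun g => hQ j g, aeb M a b c d η del1 hM hη h2,
    ae_restrict_mem (measurableSet_KM M)] with A k1 k2 k3 k4
  exact ptw M hM A k4 lam del1 η h1 h2 h4 hη a b c d hab hcd k1 k2 k3

/-- AEC, from the positivity of `cQ` -/
theorem aec (hpos : S_cQ_pos) (sq : SEQStmt) (mot : MOTStmt) (ntm : NTMStmt) (wrr : WRRStmt) :
    AECStmt := by
  intro lam del1 del h1 h2 h3 h4 hard M hM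
  have hm : ∀ m : ℕ, (0 : ℝ) < 1 / ((m : ℝ) + 1) := fun m => by positivity
  have hall : ∀ᵐ A ∂(volume.restrict (KM M)), ∀ (m : ℕ) (a b c d : ℚ), a < b → c < d →
      Tendsto (fun k : ℕ => NT ((1 + 1 / ((m : ℝ) + 1)) ^ k) a b c d A /
        ((1 + 1 / ((m : ℝ) + 1)) ^ k) ^ 2) atTop
        (𝓝 (((b : ℝ) - a) * ((d : ℝ) - c) * cQ A)) := by
    rw [ae_all_iff]
    intro m
    rw [ae_all_iff]
    intro a
    rw [ae_all_iff]
    intro b
    rw [ae_all_iff]
    intro c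
    rw [ae_all_iff]
    intro d
    by_cases hab : a < b
    · by_cases hcd : c < d
      · filter_upwards [sq lam del1 del h1 h2 h3 h4 hard M hM (1 / ((m : ℝ) + 1)) a b c d (hm m)
          (by exact_mod_cast hab) (by exact_mod_cast hcd)] with A hA _ _
        exact hA
      · exact Eventually.of_forall fun A _ h => absurd h hcd
    · exact Eventually.of_forall fun A h => absurd h hab
  filter_upwards [hall, ae_restrict_mem (measurableSet_KM M)] with A hA hAM
  have hc : 0 ≤ cQ A := (hpos M hM A hAM).le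
  refine wrr A (cQ A) hc ?_
  intro a b c d hab hcd
  have hab' : (a : ℝ) < b := by exact_mod_cast hab
  have hcd' : (c : ℝ) < d := by exact_mod_cast hcd
  refine mot (fun T => NT T a b c d A) _ (fun t => NT_nonneg _ _ _ _ _ _)
    (fun t t' ht htt => ntm.1 t t' a b c d A ht htt) ?_ (fun m => hA m a b c d hab hcd)
  have e1 : (0 : ℝ) ≤ (b : ℝ) - a := by linarith
  have e2 : (0 : ℝ) ≤ (d : ℝ) - c := by linarith
  positivity

end Pool.Agent.F5S.H11
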